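import Mathlib

namespace Pool.Agent.Results.MP_f07b17_co.Lower

open Finset

/-- No copy of the Fano plane. Point i stands for the nonzero vector of F_2^3 with binary
value i+1; the seven listed triples are the lines {x, y, x+y}. -/
def FanoFree {V : Type} [DecidableEq V] (G : Finset (Finset V)) : Prop :=
  ¬ ∃ f : Fin 7 → V, Function.Injective f ∧
    {f 0, f 1, f 2} ∈ G ∧ {f 0, f 3, f 4} ∈ G ∧ {f 0, f 5, f 6} ∈ G ∧ {f 1, f 3, f 5} ∈ G ∧
    {f 1, f 4, f 6} ∈ G ∧ {f 2, f 3, f 6} ∈ G ∧ {f 2, f 4, f 5} ∈ G

/-- The vertex set splits into A and its complement with every edge meeting both. -/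
def Bip {V : Type} (G : Finset (Finset V)) : Prop :=
  ∃ A : Set V, ∀ e ∈ G, (∃ x ∈ e, x ∈ A) ∧ (∃ y ∈ e, y ∉ A)

/-- Number of edges containing v. -/
def deg {V : Type} [DecidableEq V] (G : Finset (Finset V)) (v : V) : ℕ :=
  (G.filter (fun e => v ∈ e)).card

/-- The property P(c) of the problem. -/
def P (c : ℝ) : Prop :=
  ∃ n0 : ℕ, ∀ (V : Type) [Fintype V] [DecidableEq V], n0 ≤ Fintype.card V →
    ∀ G : Finset (Finset V), (∀ e ∈ G, e.card = 3) → FanoFree G →
      (∀ v : V, c * ((Fintype.card V).choose 2 : ℝ) < (deg G v : ℝ)) → Bip G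

def tbl : ℕ := 19608304352668943221565390150839095508718758603821183350857270552532778258365389731320360283413868778900635905646386612182729581435339891724691705826352939919465171167041917297295010188875615285619790611996791120741965782883599704524944933640821789852550043909435747062935340439635417773251458837907475599514268461883512280170163626851015248916703039342407707693590635227462256407389128395677476222711556171532197920947014631062894410808038656613717160629441202576793186801374320082098583916411811611471262683401502389482033473228789030066449831220087422945687710701026547817012973573794039520333705005319786917309357397344366814158321638764154233968052574516119544652064531960060339447030360003283677129433485974021144326730996281814818484763092436771995359857409878026119959912218734388989911578786915752255704021588516821314732837471719713370410560045543178917575325532006859225688022389303463400705781758926451758076825741256923570560701679489007948443234325067234935383877727866700755525149825657927647302825899023450167135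4569074756520227654458446961131634482775073844079389040043493183147718934353948444485280903771268760523946588121248882569853313194603123723376321828049927218178063058649640440191835909189018887315982839917765436490859676806356724070500932921036160780391443099908994833564031438209101268934159751812420954875634603736852488807706838987689392240467961962216310163628395336850609595212093273029963392860079539824450891868219248006227144921414985833278897519065603584078484406084626741467463999878643239432608682773501667880706761326601987324091800185912032305399484362463527041480464720681542506562030046722665427274269000665198242153446192960832070694118252498659475079301480470295193486712253044156581738814565801632186943347536931957364082014271299848684614185324606750173651066349534251875414150759093206288280790624771992468401596565050751758062363474385071738871038741354014448750315681704740222496273153386318166391725474597557294987162588007090905038381046797537014075568102046064797393022283738711657188107173774858678837204358366678268190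829055989447345489206353416582378616437675320553798243758080545623790720084347498744474877735620958717944754488304480382836302864705405707719964518841775161535662837952159526687114329635583850145830864362809173806266300493682506921468749839268456721936045695009496229907333895136350983030225064182071447062811826163818776396710562751006470306465155566750189032192021359692353143946760518871607046780169801665255768245039646329901804223073291783431151325450701215418669654788729597184783134750226834215908526029652436933216227598561333344071080343075957316416046168101614098682342505328697286433681995622395149223694125505350410972634304464788885316294361124869534232894289899216979933534465299807469568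

def E (a b c : ℕ) : Bool := tbl.testBit (4 ^ a + 4 ^ b + 4 ^ c)

def w : Fin 7 → ℕ := ![0, 0, 14, 166, 420, 0, 400]

def R : List ℕ := [0, 1, 2, 3, 4, 5, 6]

def chk : Bool :=
  R.all fun a => R.all fun b => R.all fun c => !(E a b c) ||
    R.all fun d => R.all fun e => !(E a d e) ||
      R.all fun f => !(E b d f) || !(E c e f) ||
        R.all fun g => !(E a f g) || !(E b e g) || !(E c d g)

lemma chk_true : chk = true := by decide +kernel

lemma memR (i : Fin 7) : (i : ℕ) ∈ R := by
  revert i; decide

lemma nofano (a b c d e f g : Fin 7) (h1 : E a b c = true) (h2 : E a d e = true)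
    (h3 : E a f g = true) (h4 : E b d f = true) (h5 : E b e g = true) (h6 : E c d g = true)
    (h7 : E c e f = true) : False := by
  have h := chk_true
  unfold chk at h
  rw [List.all_eq_true] at h
  have h := h _ (memR a)
  rw [List.all_eq_true] at h
  have h := h _ (memR b)
  rw [List.all_eq_true] at h
  have h := h _ (memR c)
  rw [h1, Bool.not_true, Bool.false_or, List.all_eq_true] at h
  have h := h _ (memR d)
  rw [List.all_eq_true] at h
  have h := h _ (memR e)
  rw [h2, Bool.not_true, Bool.false_or, List.all_eq_true] at h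
  have h := h _ (memR f)
  rw [h4, h7, Bool.not_true, Bool.false_or, Bool.false_or, List.all_eq_true] at h
  have h := h _ (memR g)
  rw [h3, h5, h6] at h
  exact absurd h (by decide)

lemma nocol : ∀ col : Fin 7 → Bool, ∃ a b c : Fin 7, E a b c = true ∧ col a = col b ∧
    col a = col c ∧ a ≠ c ∧ (a ≠ b ∨ b ≠ c) := by decide +kernel

lemma wdeg : ∀ i : Fin 7, 662996 ≤ ∑ j : Fin 7, ∑ l : Fin 7,
    (if E i j l = true then w j * w l else 0) := by decide +kernel

abbrev Vt (m : ℕ) : Type := Σ i : Fin 7, Fin (w i * m + 3)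

def Gr (m : ℕ) : Finset (Finset (Vt m)) :=
  univ.filter (fun e => e.card = 3 ∧ tbl.testBit (∑ x ∈ e, 4 ^ (x.1 : ℕ)) = true)

lemma mem_Gr {m : ℕ} (x y z : Vt m) (hxy : x ≠ y) (hxz : x ≠ z) (hyz : y ≠ z) :
    ({x, y, z} : Finset (Vt m)) ∈ Gr m ↔ E x.1 y.1 z.1 = true := by
  have h1 : x ∉ ({y, z} : Finset (Vt m)) := by simp [hxy, hxz]
  have h2 : y ∉ ({z} : Finset (Vt m)) := by simp [hyz]
  unfold Gr E
  rw [mem_filter, card_insert_of_notMem h1, card_insert_of_notMem h2, sum_insert h1,
    sum_insert h2, sum_singleton, card_singleton, add_assoc (4 ^ (x.1 : ℕ))]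
  simp

lemma card_Vt (m : ℕ) : Fintype.card (Vt m) = 1000 * m + 21 := by
  rw [Fintype.card_sigma]
  have h : ∀ i : Fin 7, Fintype.card (Fin (w i * m + 3)) = w i * m + 3 :=
    fun i => Fintype.card_fin _
  rw [Finset.sum_congr rfl (fun i _ => h i)]
  simp [Fin.sum_univ_succ, w]
  ring

lemma free (m : ℕ) : FanoFree (Gr m) := by
  rintro ⟨f, hf, h1, h2, h3, h4, h5, h6, h7⟩
  rw [mem_Gr _ _ _ (hf.ne (by decide)) (hf.ne (by decide)) (hf.ne (by decide))]
    at h1 h2 h3 h4 h5 h6 h7
  exact nofano _ _ _ _ _ _ _ h1 h2 h3 h4 h5 h6 h7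

lemma notbip (m : ℕ) : ¬ Bip (Gr m) := by
  classical
  rintro ⟨A, hA⟩
  have key : ∀ i : Fin 7, ∃ p : Fin (w i * m + 3) × Fin (w i * m + 3), p.1 ≠ p.2 ∧
      ((⟨i, p.1⟩ : Vt m) ∈ A ↔ (⟨i, p.2⟩ : Vt m) ∈ A) := by
    intro i
    let a0 : Fin (w i * m + 3) := ⟨0, by omega⟩
    let a1 : Fin (w i * m + 3) := ⟨1, by omega⟩
    let a2 : Fin (w i * m + 3) := ⟨2, by omega⟩
    have n01 : a0 ≠ a1 := by simp [a0, a1]
    have n02 : a0 ≠ a2 := by simp [a0, a2]
    have n12 : a1 ≠ a2 := by simp [a1, a2]
    have h3 : ((⟨i, a0⟩ : Vt m) ∈ A ↔ (⟨i, a1⟩ : Vt m) ∈ A) ∨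
        ((⟨i, a0⟩ : Vt m) ∈ A ↔ (⟨i, a2⟩ : Vt m) ∈ A) ∨
        ((⟨i, a1⟩ : Vt m) ∈ A ↔ (⟨i, a2⟩ : Vt m) ∈ A) := by tauto
    rcases h3 with h3 | h3 | h3
    · exact ⟨(a0, a1), n01, h3⟩
    · exact ⟨(a0, a2), n02, h3⟩
    · exact ⟨(a1, a2), n12, h3⟩
  choose p hp hpA using key
  obtain ⟨a, b, c, hE, hab, hac, nac, hor⟩ :=
    nocol (fun i => decide ((⟨i, (p i).1⟩ : Vt m) ∈ A))
  simp only [decide_eq_decide] at hab hac
  have main : ∀ x y z : Vt m, x ≠ y → x ≠ z → y ≠ z → x.1 = a → y.1 = b → z.1 = c →
      (x ∈ A ↔ y ∈ A) → (x ∈ A ↔ z ∈ A) → False := by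
    intro x y z h1 h2 h3 ha hb hc k1 k2
    have hm : ({x, y, z} : Finset (Vt m)) ∈ Gr m := by
      rw [mem_Gr _ _ _ h1 h2 h3, ha, hb, hc]; exact hE
    obtain ⟨⟨u, hu, huA⟩, ⟨t, ht, htA⟩⟩ := hA _ hm
    simp only [mem_insert, mem_singleton] at hu ht
    rcases hu with rfl | rfl | rfl <;> rcases ht with rfl | rfl | rfl <;> tauto
  have ne1 : ∀ (i j : Fin 7) (s : Fin (w i * m + 3)) (t : Fin (w j * m + 3)), i ≠ j →
      (⟨i, s⟩ : Vt m) ≠ ⟨j, t⟩ := by
    intro i j s t h h'
    exact h (congrArg Sigma.fst h')
  have ne2 : ∀ i : Fin 7, (⟨i, (p i).1⟩ : Vt m) ≠ ⟨i, (p i).2⟩ := by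
    intro i h'
    exact hp i (eq_of_heq (Sigma.mk.inj_iff.mp h').2)
  by_cases e1 : a = b
  · subst e1
    exact main ⟨a, (p a).1⟩ ⟨a, (p a).2⟩ ⟨c, (p c).1⟩ (ne2 a) (ne1 _ _ _ _ nac)
      (ne1 _ _ _ _ nac) rfl rfl rfl (hpA a) hac
  · by_cases e2 : b = c
    · subst e2
      exact main ⟨a, (p a).1⟩ ⟨b, (p b).1⟩ ⟨b, (p b).2⟩ (ne1 _ _ _ _ e1) (ne1 _ _ _ _ e1)
        (ne2 b) rfl rfl rfl hab (hab.trans (hpA b))
    · exact main ⟨a, (p a).1⟩ ⟨b, (p b).1⟩ ⟨c, (p c).1⟩ (ne1 _ _ _ _ e1) (ne1 _ _ _ _ nac)
        (ne1 _ _ _ _ e2) rfl rfl rfl hab hac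

lemma pairs0 (m : ℕ) (i : Fin 7) : 662996 * m ^ 2 ≤
    (univ.filter (fun q : Vt m × Vt m => E i q.1.1 q.2.1 = true)).card := by
  rw [card_filter, Fintype.sum_prod_type, Fintype.sum_sigma]
  calc 662996 * m ^ 2 ≤ (∑ j : Fin 7, ∑ l : Fin 7,
        (if E i j l = true then w j * w l else 0)) * m ^ 2 :=
        Nat.mul_le_mul_right _ (wdeg i)
    _ ≤ _ := by
        rw [sum_mul]
        refine sum_le_sum fun j _ => ?_
        have hin : ∀ a : Fin (w j * m + 3),
            (∑ y : Vt m, if E i (⟨j, a⟩ : Vt m).1 y.1 = true then 1 else 0) =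
            ∑ l : Fin 7, (w l * m + 3) * (if E i j l = true then 1 else 0) := by
          intro a
          rw [Fintype.sum_sigma]
          refine sum_congr rfl fun l _ => ?_
          show (∑ _b : Fin (w l * m + 3), if E i j l = true then 1 else 0) = _
          rw [sum_const, card_univ, Fintype.card_fin, smul_eq_mul]
        refine le_trans ?_ (le_of_eq (sum_congr rfl fun a _ => (hin a).symm))
        rw [sum_const, card_univ, Fintype.card_fin, smul_eq_mul, sum_mul, mul_sum]
        refine sum_le_sum fun l _ => ?_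
        split_ifs
        · nlinarith [Nat.zero_le (w j * m), Nat.zero_le (w l * m)]
        · simp

lemma degb (m : ℕ) (v : Vt m) :
    662996 * m ^ 2 ≤ 2 * deg (Gr m) v + 3 * (1000 * m + 21) := by
  classical
  set S0 := univ.filter (fun q : Vt m × Vt m => E v.1 q.1.1 q.2.1 = true) with hS0
  set S := S0.filter (fun q => q.1 ≠ v ∧ q.2 ≠ v ∧ q.1 ≠ q.2) with hS
  have h0 : 662996 * m ^ 2 ≤ S0.card := pairs0 m v.1
  have hsub : S0 ⊆ S ∪ (univ.image (fun y : Vt m => (v, y)) ∪
      (univ.image (fun y : Vt m => (y, v)) ∪ univ.image (fun y : Vt m => (y, y)))) := by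
    rintro ⟨y, z⟩ hq
    by_cases h1 : y = v
    · subst h1; simp
    · by_cases h2 : z = v
      · subst h2; simp
      · by_cases h3 : y = z
        · subst h3; simp
        · exact mem_union_left _ (mem_filter.mpr ⟨hq, h1, h2, h3⟩)
  have h1 : S0.card ≤ S.card + 3 * (1000 * m + 21) := by
    have a1 := card_le_card hsub
    have a2 := card_union_le S (univ.image (fun y : Vt m => (v, y)) ∪
      (univ.image (fun y : Vt m => (y, v)) ∪ univ.image (fun y : Vt m => (y, y))))
    have a3 := card_union_le (univ.image (fun y : Vt m => (v, y)))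
      (univ.image (fun y : Vt m => (y, v)) ∪ univ.image (fun y : Vt m => (y, y)))
    have a4 := card_union_le (univ.image (fun y : Vt m => (y, v)))
      (univ.image (fun y : Vt m => (y, y)))
    have a5 : (univ.image (fun y : Vt m => (v, y))).card ≤ (univ : Finset (Vt m)).card :=
      card_image_le
    have a6 : (univ.image (fun y : Vt m => (y, v))).card ≤ (univ : Finset (Vt m)).card :=
      card_image_le
    have a7 : (univ.image (fun y : Vt m => (y, y))).card ≤ (univ : Finset (Vt m)).card :=
      card_image_le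
    rw [card_univ, card_Vt] at a5 a6 a7
    omega
  have h2 : S.card ≤ 2 * deg (Gr m) v := by
    unfold deg
    refine card_le_mul_card_image_of_maps_to
      (f := fun q : Vt m × Vt m => ({v, q.1, q.2} : Finset (Vt m))) ?_ 2 ?_
    · rintro ⟨y, z⟩ hq
      rw [hS, mem_filter, hS0, mem_filter] at hq
      obtain ⟨⟨-, hE⟩, k1, k2, k3⟩ := hq
      refine mem_filter.mpr ⟨?_, by simp⟩
      exact (mem_Gr v y z (Ne.symm k1) (Ne.symm k2) k3).mpr hE
    · intro e he
      rw [mem_filter] at he
      obtain ⟨heG, hv⟩ := he
      have hc : e.card = 3 := (mem_filter.mp heG).2.1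
      have hsub2 : S.filter (fun q : Vt m × Vt m => ({v, q.1, q.2} : Finset (Vt m)) = e) ⊆
          (e.erase v).offDiag := by
        rintro ⟨y, z⟩ hq
        rw [mem_filter, hS, mem_filter] at hq
        obtain ⟨⟨-, k1, k2, k3⟩, k4⟩ := hq
        rw [mem_offDiag]
        subst k4
        refine ⟨mem_erase.mpr ⟨k1, by simp⟩, mem_erase.mpr ⟨k2, by simp⟩, k3⟩
      have := card_le_card hsub2
      rw [offDiag_card, card_erase_of_mem hv, hc] at this
      exact this
  omega

lemma arith (c x D : ℝ) (hc : c ≤ 6629 / 10000) (hx : 400 ≤ x)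
    (hd : 662996 * x ^ 2 ≤ 2 * D + 3 * (1000 * x + 21)) :
    c * ((1000 * x + 21) * (1000 * x + 21 - 1) / 2) < D := by
  have hp : (0 : ℝ) ≤ (1000 * x + 21) * (1000 * x + 21 - 1) / 2 := by
    apply div_nonneg _ (by norm_num)
    apply mul_nonneg <;> linarith
  have h5 := mul_le_mul_of_nonneg_right hc hp
  have h6 : 400 * x ≤ x ^ 2 := by
    rw [sq]; exact mul_le_mul_of_nonneg_right hx (by linarith)
  have h7 : (6629 : ℝ) / 10000 * ((1000 * x + 21) * (1000 * x + 21 - 1) / 2) =
      331450 * x ^ 2 + 271789 / 20 * x + 139209 / 1000 := by ring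
  linarith

theorem result (c : ℝ) (h : P c) : 6629 / 10000 < c := by
  by_contra hc
  push Not at hc
  obtain ⟨n0, h⟩ := h
  obtain ⟨m, hm1, hm2⟩ : ∃ m : ℕ, n0 ≤ m ∧ 400 ≤ m := ⟨n0 + 400, by omega, by omega⟩
  refine notbip m (h (Vt m) (by rw [card_Vt]; omega) (Gr m)
    (fun e he => (mem_filter.mp he).2.1) (free m) ?_)
  intro v
  have hd' : (662996 : ℝ) * (m : ℝ) ^ 2 ≤ 2 * (deg (Gr m) v : ℝ) + 3 * (1000 * m + 21) := by
    exact_mod_cast degb m v
  have hm' : (400 : ℝ) ≤ m := by exact_mod_cast hm2
  rw [card_Vt, Nat.cast_choose_two]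
  push_cast
  exact arith c m _ hc hm' hd'

end Pool.Agent.Results.MP_f07b17_co.Lower
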